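import Mathlib
import Pool.Agent.H68.L.R_seed8.Y715.T.Rec

/-!
# Cubic reciprocity for all primary primes
-/

set_option autoImplicit false
set_option linter.unusedSectionVars false

namespace Pool.Agent.Y715.T.RecG

open Pool.Agent.Y692.QS Pool.Agent.Y715.T.Rs Pool.Agent.Y715.T.Cub
open Pool.Agent.Y715.T.Rec (la FF mk mk_eq_zero nn cs fld ftp card_FF card_FF' mw hom_mk not_unit
  w_pow_ex w_pow_cube w_inj w_add exists_p char_FF nr_of_assoc char_ne)
open scoped Classical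

variable {π : Ei}

lemma mk_eq (x y : Ei) : mk π x = mk π y ↔ π ∣ x - y := Pool.Agent.Y715.T.Rec.mk_eq x y

/-- primary primes -/
structure Pq (π : Ei) : Prop where
  prime : Prime π
  three : (3 : Ei) ∣ π - 1

lemma Pq.norm (h : Pq π) : ¬ π ∣ 3 := by
  intro h1
  have h2 : π ∣ 1 := by
    have h3 := dvd_sub (dvd_refl π) (dvd_trans h1 h.three)
    rwa [sub_sub_cancel] at h3
  exact h.prime.not_isUnit (isUnit_of_dvd_one h2)

lemma mk_three (h9 : ¬ π ∣ 3) : (3 : FF π) ≠ 0 := by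
  intro h
  apply h9
  rw [← mk_eq_zero]
  rw [map_ofNat]
  exact h

section one

variable (hπ : Prime π) (h9 : ¬ π ∣ 3)

include hπ h9

/-- comparison with the character -/
lemma chi_iff {x : Ei} (hx : ¬ π ∣ x) (c : ZMod 3) : letI := fld hπ; letI := ftp hπ;
    π ∣ x ^ nn π - w ^ c.val ↔ chi (mw π) (mk_three h9) (mk π x) = w ^ c.val := by
  let _ := fld hπ
  let _ := ftp hπ
  have hx0 : mk π x ≠ 0 := fun h => hx ((mk_eq_zero x).1 h)
  have h1 := chi_red (mw π) (mk_three h9) (mk π x)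
  have hc : Fintype.card (FF π) = (nr π).natAbs := card_FF' hπ
  rw [hom_mk] at h1
  rw [← mk_eq, map_pow]
  show mk π x ^ (((nr π).natAbs - 1) / 3) = _ ↔ _
  have h1' : mk π (chi (mw π) (mk_three h9) (mk π x)) =
      mk π x ^ (((nr π).natAbs - 1) / 3) := by
    rw [h1, hc]
  rw [← h1']
  constructor
  · intro h
    apply hom_inj (mw π) (mk_three h9) (chi_cube _ _ hx0) (w_pow_cube _)
    rw [hom_mk]
    exact h
  · intro h
    rw [h]

lemma ex_cs {x : Ei} (hx : ¬ π ∣ x) : ∃ c : ZMod 3, π ∣ x ^ nn π - w ^ c.val := by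
  let _ := fld hπ
  let _ := ftp hπ
  have hx0 : mk π x ≠ 0 := fun h => hx ((mk_eq_zero x).1 h)
  obtain ⟨c, hc⟩ := w_pow_ex (chi_cube (mw π) (mk_three h9) hx0)
  exact ⟨c, (chi_iff hπ h9 hx c).2 hc⟩

lemma cs_spec {x : Ei} (hx : ¬ π ∣ x) : π ∣ x ^ nn π - w ^ (cs π x).val := by
  have h := ex_cs hπ h9 hx
  unfold cs
  rw [dif_pos h]
  exact h.choose_spec

lemma cs_uniq {x : Ei} {c d : ZMod 3} (h : π ∣ x ^ nn π - w ^ c.val)
    (h' : π ∣ x ^ nn π - w ^ d.val) : c = d := by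
  let _ := fld hπ
  let _ := ftp hπ
  by_cases hx : π ∣ x
  · exfalso
    have hn : nn π ≠ 0 := by
      have := third_pos (mw π) (mk_three h9)
      have hc : Fintype.card (FF π) = (nr π).natAbs := card_FF' hπ
      rw [hc] at this
      exact this.ne'
    have h1 : π ∣ w ^ c.val := (dvd_sub_right (dvd_pow hx hn)).1 h
    have h2 : π ∣ 1 := by
      rw [← w_pow_cube c.val]
      exact dvd_pow h1 (by norm_num)
    exact hπ.not_isUnit (isUnit_of_dvd_one h2)
  · have h1 := (chi_iff hπ h9 hx c).1 h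
    have h2 := (chi_iff hπ h9 hx d).1 h'
    exact w_inj (h1.symm.trans h2)

lemma cs_of {x : Ei} {c : ZMod 3} (h : π ∣ x ^ nn π - w ^ c.val) : cs π x = c := by
  have h' : ∃ c : ZMod 3, π ∣ x ^ nn π - w ^ c.val := ⟨c, h⟩
  unfold cs
  rw [dif_pos h']
  exact cs_uniq hπ h9 h'.choose_spec h

lemma cs_chi {x : Ei} (hx : ¬ π ∣ x) : letI := fld hπ; letI := ftp hπ;
    chi (mw π) (mk_three h9) (mk π x) = w ^ (cs π x).val :=
  (chi_iff hπ h9 hx _).1 (cs_spec hπ h9 hx)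

lemma cs_congr {x y : Ei} (hx : ¬ π ∣ x) (h : π ∣ x - y) : cs π x = cs π y := by
  refine (cs_of hπ h9 ?_).symm
  have h1 := cs_spec hπ h9 hx
  have h2 : π ∣ x ^ nn π - y ^ nn π := dvd_trans h (sub_dvd_pow_sub_pow x y _)
  have e : y ^ nn π - w ^ (cs π x).val =
      (x ^ nn π - w ^ (cs π x).val) - (x ^ nn π - y ^ nn π) := by ring
  rw [e]
  exact dvd_sub h1 h2

lemma cs_mul {x y : Ei} (hx : ¬ π ∣ x) (hy : ¬ π ∣ y) : cs π (x * y) = cs π x + cs π y := by
  apply cs_of hπ h9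
  rw [mul_pow, w_add]
  have h1 := cs_spec hπ h9 hx
  have h2 := cs_spec hπ h9 hy
  have e : x ^ nn π * y ^ nn π - w ^ (cs π x).val * w ^ (cs π y).val =
      (x ^ nn π - w ^ (cs π x).val) * y ^ nn π +
        w ^ (cs π x).val * (y ^ nn π - w ^ (cs π y).val) := by ring
  rw [e]
  exact dvd_add (Dvd.dvd.mul_right h1 _) (Dvd.dvd.mul_left h2 _)

lemma cs_one : cs π 1 = 0 := by
  apply cs_of hπ h9
  rw [one_pow, ZMod.val_zero, pow_zero, sub_self]
  exact dvd_zero _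

lemma cs_pow {x : Ei} (hx : ¬ π ∣ x) (n : ℕ) : cs π (x ^ n) = n * cs π x := by
  induction n with
  | zero => rw [pow_zero, cs_one hπ h9, Nat.cast_zero, zero_mul]
  | succ n ih =>
    rw [pow_succ, cs_mul hπ h9 (fun h => hx (hπ.dvd_of_dvd_pow h)) hx, ih]
    push_cast
    ring

lemma cs_prod {ι : Type*} (S : Finset ι) (f : ι → Ei) (h : ∀ i ∈ S, ¬ π ∣ f i) :
    cs π (∏ i ∈ S, f i) = ∑ i ∈ S, cs π (f i) := by
  induction S using Finset.induction_on with
  | empty =>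
    rw [Finset.prod_empty, Finset.sum_empty]
    exact cs_one hπ h9
  | insert i S hi ih =>
    rw [Finset.prod_insert hi, Finset.sum_insert hi, cs_mul hπ h9, ih]
    · exact fun j hj => h j (Finset.mem_insert_of_mem hj)
    · exact h i (Finset.mem_insert_self _ _)
    · intro h1
      obtain ⟨j, hj, h2⟩ := (hπ.dvd_finsetProd_iff _).1 h1
      exact h j (Finset.mem_insert_of_mem hj) h2

/-- cubes -/
lemma cs_zero_iff {x : Ei} (hx : ¬ π ∣ x) : cs π x = 0 ↔ ∃ y, π ∣ x - y ^ 3 := by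
  constructor
  · intro h
    let _ := fld hπ
    let _ := ftp hπ
    have hc : Fintype.card (FF π) = (nr π).natAbs := card_FF' hπ
    have hx0 : mk π x ≠ 0 := fun h => hx ((mk_eq_zero x).1 h)
    have h1 := cs_spec hπ h9 hx
    rw [h, ZMod.val_zero, pow_zero, ← mk_eq, map_pow, map_one] at h1
    have hd := card_mod (mw π) (mk_three h9)
    obtain ⟨d, hd⟩ := hd
    have hnn : nn π = d := by
      unfold nn
      rw [← hc, hd]
      omega
    rw [hnn] at h1
    obtain ⟨g, hg⟩ := (inferInstance : IsCyclic (FF π)ˣ).exists_generator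
    have ho : orderOf g = 3 * d := by
      rw [orderOf_eq_card_of_forall_mem_zpowers hg, Nat.card_eq_fintype_card,
        Fintype.card_units, hd]
    obtain ⟨n, hn⟩ := (mem_powers_iff_mem_zpowers.2 (hg (Units.mk0 _ hx0)))
    have hn : g ^ n = Units.mk0 _ hx0 := hn
    have h2 : g ^ (n * d) = 1 := by
      rw [pow_mul, hn]
      apply Units.ext
      rw [Units.val_pow_eq_pow_val, Units.val_mk0, h1, Units.val_one]
    have h3 : 3 * d ∣ n * d := by
      rw [← ho]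
      exact orderOf_dvd_of_pow_eq_one h2
    have hd0 : 0 < d := by
      have := third_pos (mw π) (mk_three h9)
      rw [hd] at this
      omega
    have h4 : 3 ∣ n := Nat.dvd_of_mul_dvd_mul_right hd0 h3
    obtain ⟨l, rfl⟩ := h4
    obtain ⟨y, hy⟩ := Ideal.Quotient.mk_surjective ((g ^ l : (FF π)ˣ) : FF π)
    refine ⟨y, ?_⟩
    rw [← mk_eq, map_pow]
    have h5 := congrArg (fun u : (FF π)ˣ => (u : FF π)) hn
    simp only [Units.val_mk0] at h5
    rw [← h5, mul_comm, pow_mul, Units.val_pow_eq_pow_val]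
    congr 1
    exact hy.symm
  · rintro ⟨y, hy⟩
    have hy0 : ¬ π ∣ y := fun h => hx (by
      have : x = (x - y ^ 3) + y ^ 3 := by ring
      rw [this]
      exact dvd_add hy (dvd_pow h (by norm_num)))
    rw [cs_congr hπ h9 hx hy, cs_pow hπ h9 hy0]
    have h3 : ((3 : ℕ) : ZMod 3) = 0 := rfl
    rw [h3, zero_mul]

lemma cs_neg_one : cs π (-1) = 0 := by
  have h0 : ¬ π ∣ -1 := fun h => hπ.not_isUnit (isUnit_of_dvd_unit h isUnit_one.neg)
  rw [cs_zero_iff hπ h9 h0]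
  exact ⟨-1, by ring_nf; exact dvd_zero _⟩

lemma cs_neg {x : Ei} (hx : ¬ π ∣ x) : cs π (-x) = cs π x := by
  have h0 : ¬ π ∣ -1 := fun h => hπ.not_isUnit (isUnit_of_dvd_unit h isUnit_one.neg)
  rw [← neg_one_mul, cs_mul hπ h9 h0 hx, cs_neg_one hπ h9, zero_add]

end one

/-! ### Reciprocity -/

/-- the Jacobi sum -/
lemma jac (h : Pq π) : letI := fld h.prime; letI := ftp h.prime;
    Jc (mw π) (mk_three h.norm) = -π := by
  let _ := fld h.prime
  let _ := ftp h.prime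
  set J := Jc (mw π) (mk_three h.norm) with hJ
  have h1 : hom (mk π w) (mw π) J = 0 := red_J (mw π) (mk_three h.norm)
  rw [hom_mk, mk_eq_zero] at h1
  have h2 : nr J = Fintype.card (FF π) := Jc_nr (mw π) (mk_three h.norm)
  have hc : (Fintype.card (FF π) : ℤ) = nr π := card_FF h.prime
  rw [hc] at h2
  have h3 : (3 : Ei) ∣ J + 1 := Jc_mod (mw π) (mk_three h.norm)
  obtain ⟨u, hu⟩ := h1
  have hn0 : nr π ≠ 0 := fun h' => h.prime.ne_zero (nr_zero_iff.1 h')
  have hu1 : nr u = 1 := by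
    rw [hu, nr_mul] at h2
    exact mul_left_cancel₀ hn0 (by rw [h2, mul_one])
  have h4 : (3 : Ei) ∣ π - 1 := h.three
  have h5 : (3 : Ei) ∣ u + 1 := by
    have e : u + 1 = (J + 1) - (π - 1) * u := by rw [hu]; ring
    rw [e]
    exact dvd_sub h3 (Dvd.dvd.mul_right h4 _)
  have h6 : u = -1 := by
    have h7 : ep u = ep (-1) := ep_per (by rwa [sub_neg_eq_add])
    have hu' : IsUnit u := isUnit_iff.2 hu1
    have h8 : (3 : ℤ) ∣ (u + 1).re ∧ (3 : ℤ) ∣ (u + 1).im := by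
      have : (((3 : ℤ) : Ei)) ∣ u + 1 := by exact_mod_cast h5
      exact int_dvd.1 this
    rw [QuadraticAlgebra.re_add, QuadraticAlgebra.im_add] at h8
    have e1 : (1 : Ei).re = 1 := rfl
    have e2 : (1 : Ei).im = 0 := rfl
    rw [e1, e2, add_zero] at h8
    unfold nr at hu1
    obtain ⟨⟨a, ha⟩, ⟨b, hb⟩⟩ := h8
    have hre : u.re = 3 * a - 1 := by omega
    rw [hre, hb] at hu1
    have hb0 : b = 0 := by
      by_contra hb0
      have : 1 ≤ b ^ 2 := by
        have : 0 < b ^ 2 := by positivity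
        omega
      nlinarith [sq_nonneg (2 * (3 * a - 1) - 3 * b)]
    subst hb0
    have ha0 : a = 0 := by
      by_contra ha0
      rcases lt_or_gt_of_ne ha0 with h' | h'
      · nlinarith
      · nlinarith
    subst ha0
    ext
    · rw [hre]
      rfl
    · rw [hb]
      rfl
  rw [hu, h6]
  ring

lemma half {ρ : Ei} (h : Pq π) (h' : Pq ρ) (hne : nr π ≠ nr ρ) :
    cs π ((nr ρ : ℤ) : Ei) + (cs ρ ((nr π : ℤ) : Ei) + cs ρ π) = 0 ∧
      ¬ ρ ∣ ((nr π : ℤ) : Ei) ∧ ¬ ρ ∣ π := by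
  let i1 := fld h.prime
  let i2 := ftp h.prime
  let i3 := fld h'.prime
  let i4 := ftp h'.prime
  have h1 := recip (mw π) (mk_three h.norm) (mw ρ) (mk_three h'.norm)
    (char_ne h'.prime h.prime hne.symm)
  have hJ : Jc (mw π) (mk_three h.norm) = -π := jac h
  have hc : ((Fintype.card (FF π) : ℕ) : ℤ) = nr π := card_FF h.prime
  have hc' : ((Fintype.card (FF ρ) : ℕ) : ℤ) = nr ρ := card_FF h'.prime
  rw [hJ, hom_mk] at h1
  have e1 : ((Fintype.card (FF ρ) : ℕ) : FF π) = mk π ((nr ρ : ℤ) : Ei) := by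
    rw [← hc', map_intCast, Int.cast_natCast]
  have e2 : ((Fintype.card (FF π) : ℕ) : FF ρ) = mk ρ ((nr π : ℤ) : Ei) := by
    rw [← hc, map_intCast, Int.cast_natCast]
  rw [e1, e2, ← map_mul] at h1
  have hA : ¬ π ∣ ((nr ρ : ℤ) : Ei) := by
    intro h2
    rw [(mk_eq_zero _).2 h2, MulChar.map_zero, zero_mul] at h1
    exact zero_ne_one h1
  have hB : ¬ ρ ∣ ((nr π : ℤ) : Ei) * -π := by
    intro h2
    rw [(mk_eq_zero _).2 h2, MulChar.map_zero, mul_zero] at h1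
    exact zero_ne_one h1
  have hB1 : ¬ ρ ∣ ((nr π : ℤ) : Ei) := fun h2 => hB (Dvd.dvd.mul_right h2 _)
  have hB2 : ¬ ρ ∣ π := fun h2 => hB (Dvd.dvd.mul_left ((dvd_neg).2 h2) _)
  have hB3 : ¬ ρ ∣ -π := fun h2 => hB2 ((dvd_neg).1 h2)
  have c1 : chi (mw π) (mk_three h.norm) (mk π ((nr ρ : ℤ) : Ei)) =
    w ^ (cs π ((nr ρ : ℤ) : Ei)).val := cs_chi h.prime h.norm hA
  have c2 : chi (mw ρ) (mk_three h'.norm) (mk ρ (((nr π : ℤ) : Ei) * -π)) =
    w ^ (cs ρ (((nr π : ℤ) : Ei) * -π)).val := cs_chi h'.prime h'.norm hB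
  rw [c1, c2, ← w_add] at h1
  have h2 := w_inj (d := 0) (h1.trans rfl)
  rw [cs_mul h'.prime h'.norm hB1 hB3, cs_neg h'.prime h'.norm hB2] at h2
  exact ⟨h2, hB1, hB2⟩

/-- cubic reciprocity -/
theorem cs_comm {ρ : Ei} (h : Pq π) (h' : Pq ρ) (hne : nr π ≠ nr ρ) : cs ρ π = cs π ρ := by
  have h1 := (half h h' hne).1
  have h2 := (half h' h hne.symm).1
  linear_combination h1 - h2

lemma not_dvd {ρ : Ei} (h : Pq π) (h' : Pq ρ) (hne : nr π ≠ nr ρ) : ¬ ρ ∣ π :=
  (half h h' hne).2.2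

end Pool.Agent.Y715.T.RecG
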