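import Mathlib
import Pool.Agent.H68.L.R_seed8.Y715.T.RecG

/-!
# Cubic reciprocity for a prime and its conjugate
-/

set_option autoImplicit false
set_option linter.unusedSectionVars false

namespace Pool.Agent.Y715.T.RecC

open Pool.Agent.Y692.QS
open Pool.Agent.Y715.T.Rec
open scoped Classical

lemma nr_nn {ρ : Ei} (hρ : Prime ρ) (h3 : ¬ ρ ∣ 3) : (nr ρ).natAbs = 3 * nn ρ + 1 := by
  let _ := fld hρ
  let _ := ftp hρ
  have h1 := Cub.card_mod (mw ρ) (RecG.mk_three h3)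
  have hc : Fintype.card (FF ρ) = (nr ρ).natAbs := card_FF' hρ
  have hpos : 0 < Fintype.card (FF ρ) := Fintype.card_pos
  rw [hc] at h1 hpos
  unfold nn
  omega

lemma unit_form {u : Ei} (hu : IsUnit u) : ∃ c : ZMod 3, u = w ^ c.val ∨ u = -w ^ c.val := by
  have h6 : u ^ 6 = 1 := by
    have h1 := isUnit_iff.1 hu
    unfold nr at h1
    obtain ⟨a, b⟩ := u
    simp only at h1
    have ha : -1 ≤ a ∧ a ≤ 1 := by constructor <;> nlinarith [sq_nonneg (a - 2 * b), sq_nonneg a]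
    have hb : -1 ≤ b ∧ b ≤ 1 := by constructor <;> nlinarith [sq_nonneg (b - 2 * a), sq_nonneg b]
    obtain ⟨ha1, ha2⟩ := ha
    obtain ⟨hb1, hb2⟩ := hb
    interval_cases a <;> interval_cases b <;> (first | (exfalso; omega) | decide)
  have h2 : (u ^ 3 - 1) * (u ^ 3 + 1) = 0 := by linear_combination h6
  rcases mul_eq_zero.1 h2 with h | h
  · obtain ⟨c, hc⟩ := w_pow_ex (sub_eq_zero.1 h)
    exact ⟨c, Or.inl hc⟩
  · obtain ⟨c, hc⟩ := w_pow_ex (u := -u) (by linear_combination -h)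
    exact ⟨c, Or.inr (by rw [← hc, neg_neg])⟩

lemma cs_unit {ρ : Ei} (h : Pr ρ) {u : Ei} (hu : IsUnit u) : cs ρ u = 0 := by
  have hw : ¬ ρ ∣ w := fun h1 => h.prime.not_isUnit
    (isUnit_of_dvd_unit h1 (isUnit_iff.2 (by decide)))
  have h1 : ∀ c : ZMod 3, cs ρ (w ^ c.val) = 0 := fun c => by
    rw [cs_pow h.prime h.norm hw, cs_w h.prime h.norm, mul_zero]
  obtain ⟨c, hc | hc⟩ := unit_form hu
  · rw [hc, h1]
  · rw [hc, cs_neg h.prime h.norm (fun h2 => hw (h.prime.dvd_of_dvd_pow h2)), h1]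

lemma exists_prim {ρ : Ei} (hρ : Prime ρ) (h3 : ¬ ρ ∣ 3) :
    ∃ u : Ei, IsUnit u ∧ (3 : Ei) ∣ u * ρ - 1 := by
  have h1 : ¬ (3 : ℤ) ∣ nr ρ := by
    have h2 := nr_nn hρ h3
    have h4 := nr_nonneg ρ
    omega
  obtain ⟨-, h5⟩ := ep_cases ρ h1
  refine ⟨star (ep ρ), IsUnit.of_mul_eq_one _ h5, ?_⟩
  have e : star (ep ρ) * ρ - 1 = star (ep ρ) * (ρ - ep ρ) := by rw [mul_sub, h5]
  rw [e]
  exact Dvd.dvd.mul_left (ep_congr ρ h1) _

lemma star_prime {r : Ei} (hr : Prime r) : Prime (star r) :=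
  (MulEquiv.prime_iff (starMulAut : Ei ≃* Ei)).2 hr

lemma star_dvd {a b : Ei} (h : a ∣ b) : star a ∣ star b := by
  obtain ⟨c, rfl⟩ := h
  rw [star_mul']
  exact dvd_mul_right _ _

lemma pr_star {π : Ei} (h : Pr π) : Pr (star π) := by
  refine ⟨star_prime h.prime, ?_, by rw [nr_star]; exact h.norm⟩
  have h1 := star_dvd h.three
  rw [star_sub, star_one, star_mul'] at h1
  have h2 : star (3 : Ei) = 3 := by decide
  have h3 : star la = -la := by decide
  rw [h2, h3, mul_neg] at h1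
  exact (neg_dvd).1 h1

/-- the conjugate of the symbol -/
lemma cs_star {π : Ei} (h : Pr π) {x : Ei} (hx : ¬ π ∣ x) :
    cs (star π) (star x) = -cs π x := by
  have h' := pr_star h
  apply cs_of h'.prime h'.norm
  have h1 := star_dvd (cs_spec h.prime h.norm hx)
  have h2 : nn (star π) = nn π := by
    unfold nn
    rw [nr_star]
  have h3 : ∀ c : ZMod 3, star (w ^ c.val : Ei) = w ^ (-c).val := by
    intro c
    rw [star_pow, star_w]
    revert c
    decide
  rw [star_sub, star_pow, h3] at h1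
  rw [h2]
  exact h1

lemma eq_of_dvd {π ρ : Ei} (h : Pr π) (h' : Pr ρ) (hd : ρ ∣ π) : ρ = π := by
  obtain ⟨u, hu⟩ := (h'.prime.dvd_prime_iff_associated h.prime).1 hd
  have h3 : (3 : Ei) ∣ (u : Ei) - 1 := by
    have e : (u : Ei) - 1 = (π - 1) - (ρ - 1) * u := by rw [← hu]; ring
    rw [e]
    exact dvd_sub (dvd_trans three_dvd_la h.three)
      (Dvd.dvd.mul_right (dvd_trans three_dvd_la h'.three) _)
  have h4 : (u : Ei) = 1 := by
    obtain ⟨c, hc | hc⟩ := unit_form u.isUnit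
    · rw [hc] at h3 ⊢
      have h5 : (((3 : ℤ) : Ei)) ∣ w ^ c.val - 1 := by exact_mod_cast h3
      rw [int_dvd] at h5
      exact (by decide : ∀ c : ZMod 3, ((3 : ℤ) ∣ (w ^ c.val - 1 : Ei).re ∧
        (3 : ℤ) ∣ (w ^ c.val - 1 : Ei).im) → (w : Ei) ^ c.val = 1) c h5
    · exfalso
      rw [hc] at h3
      have h5 : (((3 : ℤ) : Ei)) ∣ -w ^ c.val - 1 := by exact_mod_cast h3
      rw [int_dvd] at h5
      exact (by decide : ∀ c : ZMod 3, ¬ ((3 : ℤ) ∣ (-w ^ c.val - 1 : Ei).re ∧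
        (3 : ℤ) ∣ (-w ^ c.val - 1 : Ei).im)) c h5
  rw [← hu, h4, mul_one]

/-- the relation for all divisors of the trace -/
lemma rel {π : Ei} (h : Pr π) (α : Ei) (h0 : α ≠ 0)
    (hα : ∀ ρ : Ei, Prime ρ → ρ ∣ α → ¬ ρ ∣ 3 ∧ nr ρ ≠ nr π ∧ ρ ∣ π + star π) :
    cs π α = cs (star π) α := by
  have h' := pr_star h
  induction α using UniqueFactorizationMonoid.induction_on_prime with
  | h₁ => exact absurd rfl h0
  | h₂ u hu => rw [cs_unit h hu, cs_unit h' hu]
  | h₃ β ρ hβ hρ ih =>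
    have hβ0 : β ≠ 0 := hβ
    have ih' := ih hβ0 (fun r hr hd => hα r hr (Dvd.dvd.mul_left hd _))
    obtain ⟨h3, hn, ht⟩ := hα ρ hρ (dvd_mul_right _ _)
    obtain ⟨u, hu, hu3⟩ := exists_prim hρ h3
    have hup : Prime (u * ρ) := by
      obtain ⟨v, rfl⟩ := hu
      exact (Associated.prime_iff ⟨v, mul_comm _ _⟩).1 hρ
    have hnr : nr (u * ρ) = nr ρ := by rw [nr_mul, isUnit_iff.1 hu, one_mul]
    have hn' : nr ρ ≠ nr (star π) := by rwa [nr_star]
    have hq : RecG.Pq (u * ρ) := ⟨hup, hu3⟩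
    have hqπ : RecG.Pq π := ⟨h.prime, dvd_trans three_dvd_la h.three⟩
    have hqπ' : RecG.Pq (star π) := ⟨h'.prime, dvd_trans three_dvd_la h'.three⟩
    have hd : ∀ {τ : Ei}, Prime τ → nr ρ ≠ nr τ → ¬ τ ∣ ρ := fun hτ hne h1 =>
      hne (nr_of_assoc hτ hρ h1).symm
    have hdβ : ¬ π ∣ β := fun h1 => (hα π h.prime (Dvd.dvd.mul_left h1 _)).2.1 rfl
    have hdβ' : ¬ star π ∣ β := fun h1 =>
      (hα (star π) h'.prime (Dvd.dvd.mul_left h1 _)).2.1 (nr_star π)
    have hdu : ∀ {τ : Ei}, Prime τ → ¬ τ ∣ u := fun hτ h1 =>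
      hτ.not_isUnit (isUnit_of_dvd_unit h1 hu)
    have h5 : cs π ρ = cs π (u * ρ) := by
      rw [cs_mul h.prime h.norm (hdu h.prime) (hd h.prime hn), cs_unit h hu, zero_add]
    have h6 : cs (star π) ρ = cs (star π) (u * ρ) := by
      rw [cs_mul h'.prime h'.norm (hdu h'.prime) (hd h'.prime hn'), cs_unit h' hu, zero_add]
    have h7 : cs (u * ρ) π = cs π (u * ρ) :=
      RecG.cs_comm hqπ hq (by rw [hnr]; exact hn.symm)
    have h8 : cs (u * ρ) (star π) = cs (star π) (u * ρ) :=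
      RecG.cs_comm hqπ' hq (by rw [hnr]; exact hn'.symm)
    have hnd : ¬ u * ρ ∣ star π := fun h1 => hn' (by
      rw [← hnr]
      exact nr_of_assoc hup h'.prime h1)
    have h9 : cs (u * ρ) (star π) = cs (u * ρ) π := by
      have hnd1 : ¬ u * ρ ∣ -π := fun h1 => hn (by
        rw [← hnr]
        exact nr_of_assoc hup h.prime ((dvd_neg).1 h1))
      have hnd2 : ¬ u * ρ ∣ π := fun h1 => hnd1 ((dvd_neg).2 h1)
      rw [← RecG.cs_neg hup hq.norm hnd2]
      refine RecG.cs_congr hup hq.norm hnd ?_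
      rw [sub_neg_eq_add, add_comm]
      obtain ⟨v, rfl⟩ := hu
      exact (Units.mul_left_dvd).2 ht
    rw [cs_mul h.prime h.norm (hd h.prime hn) hdβ, cs_mul h'.prime h'.norm (hd h'.prime hn') hdβ',
      h5, h6, ih', ← h7, ← h8, h9]

/-- reciprocity for conjugate primes -/
theorem conj_zero {π : Ei} (h : Pr π) (hn : ¬ π ∣ star π) : cs π (star π) = 0 := by
  have h' := pr_star h
  have hn' : ¬ star π ∣ π := by
    intro h1
    have h2 := star_dvd h1
    rw [star_star] at h2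
    exact hn h2
  set t : Ei := π + star π with ht
  have hts : star t = t := by rw [ht, star_add, star_star, add_comm]
  have hπt : ¬ π ∣ t := fun h1 => hn (by
    have e : star π = t - π := by rw [ht]; ring
    rw [e]
    exact dvd_sub h1 (dvd_refl π))
  have ht0 : t ≠ 0 := fun h1 => hπt (h1 ▸ dvd_zero _)
  have ht3 : (3 : Ei) ∣ t - 2 := by
    have e : t - 2 = (π - 1) + (star π - 1) := by rw [ht]; ring
    rw [e]
    exact dvd_add (dvd_trans three_dvd_la h.three) (dvd_trans three_dvd_la h'.three)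
  have h1 := rel h t ht0 (fun ρ hρ hd => ⟨?_, ?_, hd⟩)
  · have h2 := cs_star h hπt
    rw [hts] at h2
    rw [h2] at h1
    have h3 : cs π t = 0 := by
      revert h1
      generalize cs π t = c
      revert c
      decide
    rw [← h3]
    refine cs_congr h.prime h.norm hn ?_
    exact ⟨-1, by rw [ht]; ring⟩
  · intro h3
    have h4 : ρ ∣ 1 := by
      have e : (1 : Ei) = (t - (t - 2)) - 1 := by ring
      have h5 : ρ ∣ 2 := by
        have e2 : (2 : Ei) = t - (t - 2) := by ring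
        rw [e2]
        exact dvd_sub hd (dvd_trans h3 ht3)
      have e3 : (1 : Ei) = 3 - 2 := by norm_num
      rw [e3]
      exact dvd_sub h3 h5
    exact hρ.not_isUnit (isUnit_of_dvd_one h4)
  · intro h3
    have h4 : ρ ∣ π ∨ ρ ∣ star π := by
      apply hρ.dvd_or_dvd
      rw [mul_star, ← h3, ← mul_star]
      exact dvd_mul_right _ _
    rcases h4 with h4 | h4
    · exact hπt (dvd_trans ((hρ.dvd_prime_iff_associated h.prime).1 h4).symm.dvd hd)
    · have h5 := dvd_trans ((hρ.dvd_prime_iff_associated h'.prime).1 h4).symm.dvd hd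
      have h6 := star_dvd h5
      rw [star_star, hts] at h6
      exact hπt h6

/-- cubic reciprocity -/
theorem cs_comm_all {π ρ : Ei} (h : Pr π) (h' : Pr ρ) (hn : ¬ ρ ∣ π) : cs ρ π = cs π ρ := by
  by_cases hne : nr π = nr ρ
  · have h1 : ρ ∣ star π := by
      have h2 : ρ ∣ π * star π := by
        rw [mul_star, hne, ← mul_star]
        exact dvd_mul_right _ _
      exact (h'.prime.dvd_or_dvd h2).resolve_left hn
    have h3 : ρ = star π := eq_of_dvd (pr_star h) h' h1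
    subst h3
    have hn1 : ¬ π ∣ star π := by
      intro h4
      have h5 := star_dvd h4
      rw [star_star] at h5
      exact hn h5
    have h6 := conj_zero h hn1
    have h7 := conj_zero (pr_star h) (by rwa [star_star])
    rw [star_star] at h7
    rw [h6, h7]
  · exact cs_comm h h' hne

end Pool.Agent.Y715.T.RecC
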